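import Pool.Agent.Helper49.KX.St

/-!
# KX module TOW
-/

set_option autoImplicit false

namespace Pool.Agent.Helper89.KX

open Pool.Agent.Helper49.KX
open Finset Filter Topology

theorem zpow_app {X : Type} [TopologicalSpace X] (h : X ≃ₜ X) (a b : ℤ) (x : X) :
    (h ^ a : X ≃ₜ X) ((h ^ b : X ≃ₜ X) x) = (h ^ (a + b) : X ≃ₜ X) x := by
  rw [zpow_add]; rfl

theorem clopen_pre {X : Type} [TopologicalSpace X] (g : X ≃ₜ X) {Y : Set X} (hY : IsClopen Y) :
    IsClopen {x : X | g x ∈ Y} :=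
  hY.preimage g.continuous

theorem clopen_FR {X : Type} [TopologicalSpace X] (h : X ≃ₜ X) {Y0 : Set X} (hY : IsClopen Y0) (r : ℕ) (hr : 0 < r) :
    IsClopen {x : X | FR h Y0 x r} := by
  have : {x : X | FR h Y0 x r} = {x : X | (h ^ (r : ℤ) : X ≃ₜ X) x ∈ Y0} ∩
      ⋂ i ∈ (Finset.Ioo 0 r : Finset ℕ), {x : X | (h ^ (i : ℤ) : X ≃ₜ X) x ∈ Y0}ᶜ := by
    ext x
    simp only [FR, Set.mem_ofPred_eq, Set.mem_inter_iff, Set.mem_iInter, Finset.mem_Ioo, Set.mem_compl_iff]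
    constructor
    · rintro ⟨_, h2, h3⟩
      exact ⟨h2, fun i hi => h3 i hi.1 hi.2⟩
    · rintro ⟨h2, h3⟩
      exact ⟨hr, h2, fun i hi hi' => h3 i ⟨hi, hi'⟩⟩
  rw [this]
  refine (clopen_pre _ hY).inter (isClopen_biInter_finset fun i _ => (clopen_pre _ hY).compl)

theorem hTOW : StTow := by
  intro hSyn X _ _ _ _ h hd Y0 Φ hY0 hne hmono hloc
  classical
  obtain ⟨G, hG⟩ := hSyn X h hd Y0 hY0.isOpen hne
  -- first return times
  have hFR : ∀ t, ∃ r, FR h Y0 t r := by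
    intro t
    have hex : ∃ r : ℕ, 0 < r ∧ (h ^ (r : ℤ) : X ≃ₜ X) t ∈ Y0 := by
      obtain ⟨i, _, hi⟩ := (hG ((h ^ (1 : ℤ) : X ≃ₜ X) t)).1
      refine ⟨i + 1, Nat.succ_pos _, ?_⟩
      rw [zpow_app] at hi
      push_cast
      exact hi
    refine ⟨Nat.find hex, (Nat.find_spec hex).1, (Nat.find_spec hex).2, fun i hi hi' hmem => ?_⟩
    exact Nat.find_min hex hi' ⟨hi, hmem⟩
  have hdata : ∀ t : X, ∃ (r : ℕ) (P : Set X), t ∈ Y0 → (FR h Y0 t r ∧ IsClopen P ∧ t ∈ P ∧ Φ P r ∧ P ⊆ Y0 ∧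
      ∀ x ∈ P, FR h Y0 x r) := by
    intro t
    obtain ⟨r, hr⟩ := hFR t
    by_cases ht : t ∈ Y0
    · obtain ⟨O, hO, htO, hΦ⟩ := hloc t ht r hr
      refine ⟨r, O ∩ (Y0 ∩ {x | FR h Y0 x r}), fun _ => ⟨hr, ?_, ?_, ?_, ?_, ?_⟩⟩
      · exact hO.inter (hY0.inter (clopen_FR h hY0 r hr.1))
      · exact ⟨htO, ht, hr⟩
      · exact hmono _ _ _ Set.inter_subset_left hΦ
      · exact fun x hx => hx.2.1
      · exact fun x hx => hx.2.2
    · exact ⟨0, ∅, fun h => absurd h ht⟩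
  choose R P hRP using hdata
  have hcomp : IsCompact Y0 := hY0.isClosed.isCompact
  obtain ⟨s, hs, hcov⟩ := hcomp.elim_nhds_subcover P
    (fun t ht => (hRP t ht).2.1.isOpen.mem_nhds (hRP t ht).2.2.1)
  obtain ⟨n, ⟨e⟩⟩ : ∃ n : ℕ, Nonempty (Fin n ≃ s) := ⟨s.card, ⟨s.equivFin.symm⟩⟩
  have he : ∀ v, ((e v : s) : X) ∈ Y0 := fun v => hs _ (e v).2
  let Y : Fin n → Set X := fun v => P (e v) \ ⋃ w ∈ Finset.univ.filter (· < v), P (e w)
  have hYP : ∀ v, Y v ⊆ P (e v) := fun v x hx => hx.1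
  have hcl : ∀ v, IsClopen (Y v) := by
    intro v
    exact (hRP _ (he v)).2.1.diff (isClopen_biUnion_finset fun w _ => (hRP _ (he w)).2.1)
  have hYY0 : ∀ v, Y v ⊆ Y0 := fun v x hx => (hRP _ (he v)).2.2.2.2.1 (hYP v hx)
  have hYFR : ∀ v, ∀ x ∈ Y v, FR h Y0 x (R (e v)) := fun v x hx => (hRP _ (he v)).2.2.2.2.2 x (hYP v hx)
  have hdis : ∀ v w x, x ∈ Y v → x ∈ Y w → v = w := by
    have key : ∀ v w x, x ∈ Y v → x ∈ Y w → ¬ v < w := by
      intro v w x hv hw hlt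
      apply hw.2
      simp only [Set.mem_iUnion, Finset.mem_filter, Finset.mem_univ, true_and]
      exact ⟨v, hlt, hYP v hv⟩
    intro v w x hv hw
    rcases lt_trichotomy v w with h1 | h1 | h1
    · exact absurd h1 (key v w x hv hw)
    · exact h1
    · exact absurd h1 (key w v x hw hv)
  have hcovY : ∀ y ∈ Y0, ∃ v, y ∈ Y v := by
    intro y hy
    have hy' := hcov hy
    simp only [Set.mem_iUnion] at hy'
    obtain ⟨t, ht, hyt⟩ := hy'
    have hne' : (Finset.univ.filter fun v => y ∈ P (e v)).Nonempty := by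
      refine ⟨e.symm ⟨t, ht⟩, ?_⟩
      simp [hyt]
    refine ⟨(Finset.univ.filter fun v => y ∈ P (e v)).min' hne', ?_, ?_⟩
    · have := Finset.min'_mem _ hne'
      exact (Finset.mem_filter.mp this).2
    · simp only [Set.mem_iUnion, Finset.mem_filter, Finset.mem_univ, true_and, not_exists]
      intro w hw hyw
      have := Finset.min'_le (Finset.univ.filter fun v => y ∈ P (e v)) w
        (Finset.mem_filter.mpr ⟨Finset.mem_univ _, hyw⟩)
      exact absurd hw (not_lt.mpr this)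
  refine ⟨n, Y, fun v => R (e v), ⟨hcl, ?_, ?_⟩, fun v => hmono _ _ _ (hYP v) (hRP _ (he v)).2.2.2.1⟩
  · -- disjointness
    have key : ∀ (v w : Fin n) (i k : ℕ), k < R (e w) → ∀ x, (h ^ (-(i : ℤ)) : X ≃ₜ X) x ∈ Y v →
        (h ^ (-(k : ℤ)) : X ≃ₜ X) x ∈ Y w → ¬ i < k := by
      intro v w i k hk x hi hk' hlt
      have h1 := (hYFR w _ hk').2.2 (k - i) (Nat.sub_pos_of_lt hlt) (lt_of_le_of_lt (Nat.sub_le _ _) hk)
      apply h1
      rw [zpow_app, Nat.cast_sub hlt.le]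
      have : ((k : ℤ) - (i : ℤ) + -(k : ℤ)) = -(i : ℤ) := by ring
      rw [this]
      exact hYY0 v hi
    intro v w i k hi hk x hxi hxk
    have hik : i = k := by
      rcases lt_trichotomy i k with h1 | h1 | h1
      · exact absurd h1 (key v w i k hk x hxi hxk)
      · exact h1
      · exact absurd h1 (key w v k i hi x hxk hxi)
    subst hik
    exact ⟨hdis v w _ hxi hxk, rfl⟩
  · intro x
    have hex : ∃ i : ℕ, (h ^ (-(i : ℤ)) : X ≃ₜ X) x ∈ Y0 := by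
      obtain ⟨i, _, hi⟩ := (hG x).2
      exact ⟨i, hi⟩
    obtain ⟨v, hv⟩ := hcovY _ (Nat.find_spec hex)
    refine ⟨v, Nat.find hex, ?_, hv⟩
    by_contra hcon
    rw [not_lt] at hcon
    have hfr := hYFR v _ hv
    have hlt : Nat.find hex - R (e v) < Nat.find hex := Nat.sub_lt_of_pos_le hfr.1 hcon
    apply Nat.find_min hex hlt
    have h2 := hfr.2.1
    rw [zpow_app] at h2
    rw [Nat.cast_sub hcon]
    have : (-((Nat.find hex : ℤ) - (R (e v) : ℤ))) = (R (e v) : ℤ) + -(Nat.find hex : ℤ) := by ring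
    rw [this]
    exact h2

end Pool.Agent.Helper89.KX
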